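import Mathlib
import Pool.Agent.Y4.P.Jobs

/-!
# Simple abelian subvarieties and factors of the period matrix: complex multiplication
-/

set_option linter.unusedSectionVars false

namespace Pool.Agent.Y500.P

open Matrix Module Pool.Agent.Y90 Pool.Agent.W437.HC Pool.Agent.W437.HD Pool.Agent.W548.Odd
  Pool.Agent.TH504.CB Pool.Agent.Y4.P
open Pool.Agent.H204R3.CM (IsHodge)
open Pool.Agent.W437.HP (cK cK_mul cK_one)

noncomputable section

section gen

variable {B B' : Type} [Fintype B] [DecidableEq B] [Fintype B'] [DecidableEq B']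
  {T T' : Type} [AddCommGroup T] [Module ℂ T] [AddCommGroup T'] [Module ℂ T']
  {per : (B → ℚ) →+ T} {per' : (B' → ℚ) →+ T'} {J : Matrix B B ℝ} {J' : Matrix B' B' ℝ}

/-- Homomorphisms are compatible with the complex structures. -/
theorem cht_conv (h : Cht per J) (h' : Cht per' J') {R : Matrix B' B ℚ} (Ψ : T →ₗ[ℂ] T')
    (hΨ : ∀ v, Ψ (per v) = per' (R *ᵥ v)) : cK ℂ R * DJ J = DJ J' * cK ℂ R := by
  obtain ⟨P, I, hP1, hP2, hI1, hI2⟩ := h.ex
  obtain ⟨P', I', hP1', hP2', hI1', hI2'⟩ := h'.ex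
  -- the real extension
  have hcast : ∀ w : B → ℚ, cK ℝ R *ᵥ (fun i => ((w i : ℚ) : ℝ)) =
      fun i => (((R *ᵥ w) i : ℚ) : ℝ) := by
    intro w
    funext i
    simp [mulVec, dotProduct, cK]
  have hr : ∀ (r : ℝ) (t : T), Ψ (r • t) = r • Ψ t := fun r t => Ψ.map_smul_of_tower r t
  have hx : ∀ x : B → ℝ, Ψ (P x) = P' (cK ℝ R *ᵥ x) := by
    let F₁ : (B → ℝ) →ₗ[ℝ] T' :=
      { toFun := fun x => Ψ (P x)
        map_add' := fun x y => by rw [map_add, map_add]
        map_smul' := fun r x => by rw [map_smul, hr, RingHom.id_apply] }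
    let F₂ : (B → ℝ) →ₗ[ℝ] T' := P'.comp (Matrix.mulVecLin (cK ℝ R))
    have h1 : F₁ = F₂ := by
      refine (Pi.basisFun ℝ B).ext fun i => ?_
      change Ψ (P (Pi.basisFun ℝ B i)) = P' (cK ℝ R *ᵥ (Pi.basisFun ℝ B i))
      rw [Pi.basisFun_apply, ← single_castR i, hP1, hΨ, hcast, hP1']
    intro x
    exact LinearMap.congr_fun h1 x
  have hreal : cK ℝ R * J = J' * cK ℝ R := by
    refine Matrix.toLin'.injective (LinearMap.ext fun x => ?_)
    rw [Matrix.toLin'_apply, Matrix.toLin'_apply, ← mulVec_mulVec, ← mulVec_mulVec]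
    have h2 : P' (cK ℝ R *ᵥ (J *ᵥ x)) = P' (J' *ᵥ (cK ℝ R *ᵥ x)) := by
      rw [← hx, hP2, hP2', map_smul, hx]
    rw [← hI1' (cK ℝ R *ᵥ (J *ᵥ x)), h2, hI1']
  have h4 : (cK ℝ R * J).map (fun x : ℝ => (x : ℂ)) =
      (cK ℝ R).map (fun x : ℝ => (x : ℂ)) * J.map (fun x : ℝ => (x : ℂ)) :=
    Matrix.map_mul (f := Complex.ofRealHom)
  have h5 : (J' * cK ℝ R).map (fun x : ℝ => (x : ℂ)) =
      J'.map (fun x : ℝ => (x : ℂ)) * (cK ℝ R).map (fun x : ℝ => (x : ℂ)) :=
    Matrix.map_mul (f := Complex.ofRealHom)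
  unfold DJ
  rw [Matrix.mul_smul, Matrix.smul_mul, ← cK_R, ← h4, ← h5, hreal]

end gen

/-- The rational endomorphisms of a simple abelian variety are injective. -/
theorem simple_inj {a : ℕ} {Z' : Matrix (Fin a) (Fin a) ℂ} (h' : PM Z') (hsim : IsSimpleAV Z')
    {b : Matrix (Fin a ⊕ Fin a) (Fin a ⊕ Fin a) ℚ} (hb : b ≠ 0)
    (hD : qm b * DZ Z' = DZ Z' * qm b) {c : Matrix (Fin a ⊕ Fin a) (Fin a ⊕ Fin a) ℚ}
    (hc : b * c = 0) : c = 0 := by
  by_contra hne
  have h1 : LinearMap.ker (Matrix.mulVecLin (qm b)) = ⊤ := by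
    refine stable_eq_top h'.det hsim _ ?_ ?_ ?_
    · intro σ v hv
      rw [LinearMap.mem_ker, mulVecLin_apply] at hv ⊢
      have h2 := map_mulVec_aut σ (qm b) v
      rw [hv] at h2
      have h3 : (qm b).map σ = qm b := by
        ext i j
        simp [qm]
      rw [h3] at h2
      rw [← h2]
      funext i
      simp
    · intro v hv
      rw [LinearMap.mem_ker, mulVecLin_apply] at hv ⊢
      rw [mulVec_mulVec, hD, ← mulVec_mulVec, hv, mulVec_zero]
    · intro h2
      apply hne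
      have h3 : qm b * qm c = 0 := by
        rw [← qm_mul, hc]
        ext i j
        simp [qm]
      have h4 : ∀ v, qm c *ᵥ v = 0 := by
        intro v
        have h5 : qm c *ᵥ v ∈ LinearMap.ker (Matrix.mulVecLin (qm b)) := by
          rw [LinearMap.mem_ker, mulVecLin_apply, mulVec_mulVec, h3, zero_mulVec]
        rw [h2, Submodule.mem_bot] at h5
        exact h5
      ext i j
      have h6 := congrFun (h4 (Pi.single j 1)) i
      rw [mulVec_single_one] at h6
      simp only [Matrix.col_apply, Matrix.map_apply, Pi.zero_apply] at h6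
      exact_mod_cast h6
  apply hb
  ext i j
  have h5 : (Pi.single j 1 : Fin a ⊕ Fin a → ℂ) ∈ LinearMap.ker (Matrix.mulVecLin (qm b)) := by
    rw [h1]
    trivial
  rw [LinearMap.mem_ker, mulVecLin_apply, mulVec_single_one] at h5
  have h6 := congrFun h5 i
  simp only [Matrix.col_apply, Matrix.map_apply, Pi.zero_apply] at h6
  exact_mod_cast h6

variable {H T : Type} [AddCommGroup H] [Module ℚ H] [AddCommGroup T] [Module ℂ T] {per : H →+ T}
  {G : ℕ} {Z : Matrix (Fin G) (Fin G) ℂ}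

/-- The simple factors of the period matrix. -/
theorem goodF_of (A : H ≃ₗ[ℚ] (Fin G ⊕ Fin G → ℚ))
    (hC : Cht (per.comp A.symm.toLinearMap.toAddMonoidHom) (JR Z)) (hs : PrimeOrCM per) :
    GoodF Z := by
  intro a Z' E F hfac h' hsim ha
  obtain ⟨Ψ₁, h₁⟩ := h'.cht.hom hC (R := E) (by rw [DJ_JR, DJ_JR]; exact hfac.de.symm)
  obtain ⟨Ψ₂, h₂⟩ := hC.hom h'.cht (R := F) (by rw [DJ_JR, DJ_JR]; exact hfac.fd)
  obtain ⟨ι, hι⟩ : ∃ ι : (Fin a ⊕ Fin a → ℚ) →ₗ[ℚ] H, ∀ y, ι y = A.symm (E *ᵥ y) :=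
    ⟨A.symm.toLinearMap.comp (Matrix.mulVecLin E), fun y => rfl⟩
  obtain ⟨π, hπ⟩ : ∃ π : H →ₗ[ℚ] (Fin a ⊕ Fin a → ℚ), ∀ v, π v = F *ᵥ A v :=
    ⟨(Matrix.mulVecLin F).comp A.toLinearMap, fun y => rfl⟩
  have hπι : ∀ y, π (ι y) = y := by
    intro y
    rw [hπ, hι, LinearEquiv.apply_symm_apply, mulVec_mulVec, hfac.fe, one_mulVec]
  have g₁ : ∀ y, Ψ₁ (perOne Z' y) = per (ι y) := fun y => by
    rw [hι]
    exact h₁ y
  have g₂ : ∀ v, Ψ₂ (per v) = perOne Z' (π v) := fun v => by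
    have h3 := h₂ (A v)
    have h4 : (per.comp A.symm.toLinearMap.toAddMonoidHom) (A v) = per v := by
      change per (A.symm (A v)) = per v
      rw [LinearEquiv.symm_apply_apply]
    rw [h4] at h3
    rw [hπ]
    exact h3
  have hsp : ∀ t : Fin a → ℂ, t ∈ Submodule.span ℝ (Set.range (perOne Z')) := by
    intro t
    rw [perOne_span h']
    trivial
  have hr₁ : ∀ (r : ℝ) t, Ψ₁ (r • t) = r • Ψ₁ t := fun r t => Ψ₁.map_smul_of_tower r t
  have hr₂ : ∀ (r : ℝ) t, Ψ₂ (r • t) = r • Ψ₂ t := fun r t => Ψ₂.map_smul_of_tower r t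
  have hinj : Function.Injective ι := fun x y hxy => by
    rw [← hπι x, hxy, hπι]
  obtain ⟨U, hU⟩ : ∃ U : Submodule ℚ H, U = LinearMap.range ι := ⟨_, rfl⟩
  have hUι : ∀ y, ι y ∈ U := fun y => by
    rw [hU]
    exact ⟨y, rfl⟩
  have hrank : finrank ℚ U = 2 * a := by
    rw [hU, LinearMap.finrank_range_of_inj hinj, finrank_fintype_fun_eq_card, Fintype.card_sum,
      Fintype.card_fin]
    ring
  -- the image of the first map
  have hm₁ : ∀ (S : Set H) (S' : Set (Fin a ⊕ Fin a → ℚ)), (∀ y ∈ S', ι y ∈ S) →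
      ∀ t ∈ Submodule.span ℝ (perOne Z' '' S'), Ψ₁ t ∈ Submodule.span ℝ (per '' S) := by
    intro S S' hS t ht
    induction ht using Submodule.span_induction with
    | mem t ht =>
      obtain ⟨y, hy, rfl⟩ := ht
      rw [g₁]
      exact Submodule.subset_span ⟨_, hS y hy, rfl⟩
    | zero =>
      rw [map_zero]
      exact Submodule.zero_mem _
    | add x y _ _ hx hy =>
      rw [map_add]
      exact Submodule.add_mem _ hx hy
    | smul r x _ hx =>
      rw [hr₁]
      exact Submodule.smul_mem _ _ hx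
  have hm₂ : ∀ (S : Set H) (S' : Set (Fin a ⊕ Fin a → ℚ)), (∀ v ∈ S, π v ∈ S') →
      ∀ t ∈ Submodule.span ℝ (per '' S), Ψ₂ t ∈ Submodule.span ℝ (perOne Z' '' S') := by
    intro S S' hS t ht
    induction ht using Submodule.span_induction with
    | mem t ht =>
      obtain ⟨v, hv, rfl⟩ := ht
      rw [g₂]
      exact Submodule.subset_span ⟨_, hS v hv, rfl⟩
    | zero =>
      rw [map_zero]
      exact Submodule.zero_mem _
    | add x y _ _ hx hy =>
      rw [map_add]
      exact Submodule.add_mem _ hx hy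
    | smul r x _ hx =>
      rw [hr₂]
      exact Submodule.smul_mem _ _ hx
  have hΨ : ∀ t, Ψ₂ (Ψ₁ t) = t := by
    intro t
    have ht := hsp t
    induction ht using Submodule.span_induction with
    | mem t ht =>
      obtain ⟨y, rfl⟩ := ht
      rw [g₁, g₂, hπι]
    | zero => rw [map_zero, map_zero]
    | add x y _ _ hx hy => rw [map_add, map_add, hx, hy]
    | smul r x _ hx => rw [hr₁, hr₂, hx]
  have hsub : St.IsSub per U := by
    intro x hx
    obtain ⟨t, rfl⟩ : ∃ t, x = Ψ₁ t := by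
      induction hx using Submodule.span_induction with
      | mem x hx =>
        obtain ⟨v, hv, rfl⟩ := hx
        rw [hU] at hv
        obtain ⟨y, rfl⟩ := hv
        exact ⟨_, (g₁ y).symm⟩
      | zero => exact ⟨0, (map_zero _).symm⟩
      | add x y _ _ hx hy =>
        obtain ⟨s, rfl⟩ := hx
        obtain ⟨t, rfl⟩ := hy
        exact ⟨s + t, (map_add _ _ _).symm⟩
      | smul r x _ hx =>
        obtain ⟨s, rfl⟩ := hx
        exact ⟨r • s, (hr₁ _ _).symm⟩
    rw [← map_smul]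
    refine hm₁ U Set.univ (fun y _ => hUι y) _ ?_
    rw [Set.image_univ]
    exact hsp _
  have hsimple : St.IsSimpleSub per U := by
    refine ⟨hsub, ?_, fun U' hU' hsub' => ?_⟩
    · intro h0
      rw [h0, finrank_bot] at hrank
      omega
    · have h3 := hsim (U'.comap ι) (fun x hx => by
        have h4 := hm₁ U' (U'.comap ι) (fun y hy => hy) x hx
        have h5 := hsub' _ h4
        have h6 := hm₂ U' (U'.comap ι) (fun v hv => by
          have h7 := hU' hv
          rw [hU] at h7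
          obtain ⟨y, rfl⟩ := h7
          change ι (π (ι y)) ∈ U'
          rw [hπι]
          exact hv) _ h5
        rwa [map_smul, hΨ] at h6)
      rcases h3 with h3 | h3
      · left
        rw [Submodule.eq_bot_iff]
        intro v hv
        have h7 := hU' hv
        rw [hU] at h7
        obtain ⟨y, rfl⟩ := h7
        have h8 : y ∈ U'.comap ι := hv
        rw [h3, Submodule.mem_bot] at h8
        rw [h8, map_zero]
      · right
        refine le_antisymm hU' ?_
        intro v hv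
        rw [hU] at hv
        obtain ⟨y, rfl⟩ := hv
        have h8 : y ∈ U'.comap ι := by rw [h3]; trivial
        exact h8
  rcases hs U hsimple with hcm | h2 | ⟨p, hp, h2⟩
  rotate_left
  · right
    left
    omega
  · right
    right
    have h3 : a = p := by omega
    rwa [h3]
  left
  obtain ⟨A₀, hc, hr, hD⟩ := hcm
  let e₀ : (Fin a ⊕ Fin a → ℚ) ≃ₗ[ℚ] LinearMap.range ι := LinearEquiv.ofInjective ι hinj
  let e : (Fin a ⊕ Fin a → ℚ) ≃ₗ[ℚ] U := e₀.trans (LinearEquiv.ofEq _ _ hU.symm)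
  have he : ∀ y, (e y : H) = ι y := fun y => rfl
  let Φ : Matrix (Fin a ⊕ Fin a) (Fin a ⊕ Fin a) ℚ ≃ₗ[ℚ] (U →ₗ[ℚ] U) :=
    Matrix.toLin'.trans e.conj
  have hΦ : ∀ M u, Φ M u = e (M *ᵥ e.symm u) := by
    intro M u
    change e.conj (Matrix.toLin' M) u = _
    rw [LinearEquiv.conj_apply_apply, Matrix.toLin'_apply]
  have hΦm : ∀ M N, Φ M ∘ₗ Φ N = Φ (M * N) := by
    intro M N
    refine LinearMap.ext fun u => ?_
    rw [LinearMap.comp_apply, hΦ, hΦ, hΦ, LinearEquiv.symm_apply_apply, mulVec_mulVec]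
  -- the algebra
  obtain ⟨A₁, hA₁⟩ : ∃ A₁ : Submodule ℚ (Matrix (Fin a ⊕ Fin a) (Fin a ⊕ Fin a) ℚ),
      A₁ = A₀.comap Φ.toLinearMap := ⟨_, rfl⟩
  have hmem : ∀ M, M ∈ A₁ ↔ Φ M ∈ A₀ := fun M => by
    rw [hA₁]
    rfl
  have hcomm : ∀ x ∈ A₁, ∀ y ∈ A₁, x * y = y * x := by
    intro x hx y hy
    rw [hmem] at hx hy
    apply Φ.injective
    rw [← hΦm, ← hΦm]
    exact (hc _ hx _ hy).1
  have hmul : ∀ x ∈ A₁, ∀ y ∈ A₁, x * y ∈ A₁ := by
    intro x hx y hy
    rw [hmem] at hx hy ⊢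
    rw [← hΦm]
    exact (hc _ hx _ hy).2
  have hrA : finrank ℚ A₁ = 2 * a := by
    rw [← hrank, ← hr, hA₁]
    have h3 : (A₀.comap Φ.toLinearMap) = A₀.map Φ.symm.toLinearMap := by
      rw [Submodule.map_equiv_eq_comap_symm]
      rfl
    rw [h3]
    exact LinearEquiv.finrank_map_eq Φ.symm A₀
  have hDZ : ∀ x ∈ A₁, qm x * DZ Z' = DZ Z' * qm x := by
    intro M hM
    rw [hmem] at hM
    obtain ⟨Ψ, hΨM⟩ := hD _ hM
    have h3 := cht_conv h'.cht h'.cht (R := M) (Ψ₂.comp (Ψ.comp Ψ₁)) (fun y => by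
      rw [LinearMap.comp_apply, LinearMap.comp_apply, g₁, ← he, hΨM, hΦ,
        LinearEquiv.symm_apply_apply, he, g₂, hπι])
    rw [DJ_JR] at h3
    exact h3
  -- the unit element
  have hone : (1 : Matrix (Fin a ⊕ Fin a) (Fin a ⊕ Fin a) ℚ) ∈ A₁ := by
    have hne : A₁ ≠ ⊥ := by
      intro h0
      rw [h0, finrank_bot] at hrA
      omega
    obtain ⟨b, hb, hb0⟩ := (Submodule.ne_bot_iff _).1 hne
    let L : A₁ →ₗ[ℚ] A₁ :=
      { toFun := fun x => ⟨b * x, hmul b hb x x.2⟩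
        map_add' := fun x y => by
          apply Subtype.ext
          exact Matrix.mul_add _ _ _
        map_smul' := fun c x => by
          apply Subtype.ext
          exact Matrix.mul_smul _ _ _ }
    have hL : Function.Injective L := by
      rw [← LinearMap.ker_eq_bot, LinearMap.ker_eq_bot']
      intro x hx
      apply Subtype.ext
      exact simple_inj h' hsim hb0 (hDZ b hb) (congrArg Subtype.val hx)
    obtain ⟨x, hx⟩ := (LinearMap.injective_iff_surjective.1 hL) ⟨b, hb⟩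
    have h3 : b * (x : Matrix (Fin a ⊕ Fin a) (Fin a ⊕ Fin a) ℚ) = b := congrArg Subtype.val hx
    have h4 : (x : Matrix (Fin a ⊕ Fin a) (Fin a ⊕ Fin a) ℚ) - 1 = 0 := by
      refine simple_inj h' hsim hb0 (hDZ b hb) ?_
      rw [Matrix.mul_sub, h3, Matrix.mul_one, sub_self]
    rw [← sub_eq_zero.1 h4]
    exact x.2
  let S : Subalgebra ℚ (Matrix (Fin a ⊕ Fin a) (Fin a ⊕ Fin a) ℚ) :=
    A₁.toSubalgebra hone (fun x y hx hy => hmul x hx y hy)
  refine ⟨S, fun x hx y hy => hcomm x hx y hy, ?_, fun x hx => hDZ x hx⟩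
  exact hrA

/-- **The simple factors of the period matrix of an abstract abelian variety.** -/
theorem jgood : JGood := by
  intro H T _ _ _ _ per G Z A hC hs
  exact goodF_of A hC hs

end

end Pool.Agent.Y500.P
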